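import Mathlib
import Pool.Agent.H14.ShatDefs

set_option autoImplicit false

namespace Pool.Agent.Results.MP_522a36_co.Drop

open Pool.Agent.H14.ShatDefs

def L : List (Finset ℕ) := [∅, {0}, {1}, {2}, {3}, {0, 1}, {1, 2}]

def 𝒮 : Set (Set ℕ) := {S | ∃ A ∈ L, S = ↑A}

def B : Finset ℕ := {0, 1, 2, 3}

theorem L_sub : ∀ A ∈ L, A ⊆ B := by decide

theorem sub_B {k : ℕ} {Y : Finset ℕ} (h : Shatters (unions 𝒮 k) Y) : Y ⊆ B := by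
  obtain ⟨_, ⟨f, hf, rfl⟩, e⟩ := h Y subset_rfl
  intro y hy
  have : y ∈ (⋃ i, f i) ∩ (Y : Set ℕ) := by rw [e]; exact hy
  obtain ⟨i, hi⟩ := Set.mem_iUnion.1 this.1
  obtain ⟨A, hA, e'⟩ := hf i
  rw [e'] at hi
  exact L_sub A hA hi

theorem sh2 (Y : Finset ℕ) (h : ∀ Z ∈ Y.powerset, ∃ A ∈ L, ∃ A' ∈ L, (A ∪ A') ∩ Y = Z) :
    Shatters (unions 𝒮 2) Y := by
  classical
  intro Z hZ
  obtain ⟨A, hA, A', hA', e⟩ := h (Y.filter (· ∈ Z)) (Finset.mem_powerset.2 (Finset.filter_subset _ _))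
  refine ⟨_, ⟨![A, A'], by intro i; fin_cases i; exacts [⟨A, hA, rfl⟩, ⟨A', hA', rfl⟩], rfl⟩, ?_⟩
  ext x
  have := Finset.ext_iff.1 e x
  have h2 := @hZ x
  simp only [Finset.mem_inter, Finset.mem_union, Finset.mem_filter, Finset.mem_coe] at this h2
  simp only [Set.mem_inter_iff, Set.mem_iUnion, Fin.exists_fin_two, Matrix.cons_val_zero,
    Matrix.cons_val_one, Finset.mem_coe]
  tauto

theorem sh3 : Shatters (unions 𝒮 3) B := by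
  classical
  intro Z hZ
  have h : ∀ Z ∈ B.powerset, ∃ A ∈ L, ∃ A' ∈ L, ∃ A'' ∈ L, (A ∪ A' ∪ A'') ∩ B = Z := by decide
  obtain ⟨A, hA, A', hA', A'', hA'', e⟩ :=
    h (B.filter (· ∈ Z)) (Finset.mem_powerset.2 (Finset.filter_subset _ _))
  refine ⟨_, ⟨![A, A', A''], by
    intro i; fin_cases i; exacts [⟨A, hA, rfl⟩, ⟨A', hA', rfl⟩, ⟨A'', hA'', rfl⟩], rfl⟩, ?_⟩
  ext x
  have := Finset.ext_iff.1 e x
  have h2 := @hZ x
  simp only [Finset.mem_inter, Finset.mem_union, Finset.mem_filter, Finset.mem_coe] at this h2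
  simp only [Set.mem_inter_iff, Set.mem_iUnion, Fin.exists_fin_succ, Matrix.cons_val_zero,
    Matrix.cons_val_succ, Finset.mem_coe, IsEmpty.exists_iff, or_false]
  tauto

theorem not_sh2 : ¬ Shatters (unions 𝒮 2) B := by
  intro h
  obtain ⟨_, ⟨f, hf, rfl⟩, e⟩ := h B subset_rfl
  obtain ⟨A, hA, e0⟩ := hf 0
  obtain ⟨A', hA', e1⟩ := hf 1
  have h : ∀ A ∈ L, ∀ A' ∈ L, ∃ x ∈ B, x ∉ A ∧ x ∉ A' := by decide
  obtain ⟨x, hx, h1, h2⟩ := h A hA A' hA'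
  have : x ∈ (⋃ i, f i) ∩ (B : Set ℕ) := by rw [e]; exact hx
  obtain ⟨i, hi⟩ := Set.mem_iUnion.1 this.1
  fin_cases i
  · exact h1 (by simpa [e0] using hi)
  · exact h2 (by simpa [e1] using hi)

theorem vc_eq {𝒯 : Set (Set ℕ)} {d : ℕ} (h1 : ∃ Y, Shatters 𝒯 Y ∧ Y.card = d)
    (h2 : ∀ Y, Shatters 𝒯 Y → Y.card ≤ d) : vc 𝒯 = d :=
  IsGreatest.csSup_eq ⟨h1, by rintro _ ⟨Y, h, rfl⟩; exact h2 Y h⟩

theorem vc3 : vc (unions 𝒮 3) = 4 :=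
  vc_eq ⟨B, sh3, rfl⟩ fun _ h => Finset.card_le_card (sub_B h)

theorem vc2 : vc (unions 𝒮 2) = 3 := by
  refine vc_eq ⟨{0, 1, 2}, sh2 _ (by decide), rfl⟩ fun Y h => ?_
  by_contra hc
  have : Y = B := Finset.eq_of_subset_of_card_le (sub_B h) (by show 4 ≤ _; omega)
  exact not_sh2 (this ▸ h)

theorem top3 : Top 𝒮 3 = {B} := by
  ext Y
  refine ⟨fun h => Finset.eq_of_subset_of_card_le (sub_B h.1) (by rw [h.2, vc3]; rfl), ?_⟩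
  rintro rfl
  exact ⟨sh3, by rw [vc3]; rfl⟩

theorem refl (Y : Finset ℕ) : ShIso 𝒮 Y Y := ⟨Equiv.refl _, by simp⟩

theorem noiso : ¬ ShIso 𝒮 {0, 1, 2} {0, 1, 3} := by
  rintro ⟨f, hf⟩
  have key : ∀ a b : ({0, 1, 2} : Finset ℕ), a ≠ b → ({a, b} : Set _) ∈ trace 𝒮 {0, 1, 2} →
      (f a).1 ≠ 3 ∧ (f b).1 ≠ 3 := by
    intro a b hab h
    have h1 : f '' {a, b} ∈ trace 𝒮 {0, 1, 3} := hf ▸ ⟨_, h, rfl⟩
    obtain ⟨_, ⟨A, hA, rfl⟩, e⟩ := h1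
    have ha : (f a).1 ∈ A := by
      have : f a ∈ f '' {a, b} := ⟨a, by simp, rfl⟩
      rw [e] at this; exact this
    have hb : (f b).1 ∈ A := by
      have : f b ∈ f '' {a, b} := ⟨b, by simp, rfl⟩
      rw [e] at this; exact this
    have hne : (f a).1 ≠ (f b).1 := fun h' => hab (f.injective (Subtype.ext h'))
    have h3 : ∀ A ∈ L, ∀ x ∈ A, ∀ y ∈ A, x ≠ y → x ≠ 3 ∧ y ≠ 3 := by decide
    exact h3 A hA _ ha _ hb hne
  have t : ∀ a b : ({0, 1, 2} : Finset ℕ), ({a.1, b.1} : Finset ℕ) ∈ L →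
      ({a, b} : Set _) ∈ trace 𝒮 {0, 1, 2} := by
    intro a b h
    refine ⟨_, ⟨_, h, rfl⟩, ?_⟩
    ext y
    simp only [Set.mem_insert_iff, Set.mem_singleton_iff, Set.mem_ofPred_eq, Finset.coe_insert,
      Finset.coe_singleton]
    exact or_congr Subtype.ext_iff Subtype.ext_iff
  have k1 := key ⟨0, by simp⟩ ⟨1, by simp⟩ (by simp) (t _ _ (by decide))
  have k2 := key ⟨1, by simp⟩ ⟨2, by simp⟩ (by simp) (t _ _ (by decide))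
  obtain ⟨⟨x, hx⟩, e⟩ := f.surjective ⟨3, by simp⟩
  have e' := congrArg Subtype.val e
  simp only [Finset.mem_insert, Finset.mem_singleton] at hx
  rcases hx with rfl | rfl | rfl
  · exact k1.1 e'
  · exact k1.2 e'
  · exact k2.2 e'

theorem result : ∃ 𝒮 : Set (Set ℕ), FinVC 𝒮 ∧ seq 𝒮 3 < seq 𝒮 2 := by
  refine ⟨𝒮, ⟨4, fun Y h => ?_⟩, ?_⟩
  · obtain ⟨_, ⟨A, hA, rfl⟩, e⟩ := h Y subset_rfl
    refine Finset.card_le_card (t := B) fun y hy => L_sub A hA ?_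
    have : y ∈ (A : Set ℕ) ∩ (Y : Set ℕ) := by rw [e]; exact hy
    exact this.1
  · have h3 : seq 𝒮 3 = 1 := by simp [seq, top3]
    have m1 : ({0, 1, 2} : Finset ℕ) ∈ Top 𝒮 2 := ⟨sh2 _ (by decide), by rw [vc2]; rfl⟩
    have m2 : ({0, 1, 3} : Finset ℕ) ∈ Top 𝒮 2 := ⟨sh2 _ (by decide), by rw [vc2]; rfl⟩
    have fin : (Top 𝒮 2).Finite :=
      (B.powerset.finite_toSet).subset fun Y h => Finset.mem_coe.2 (Finset.mem_powerset.2 (sub_B h.1))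
    rw [h3, seq, Set.one_lt_ncard (fin.image _)]
    refine ⟨_, ⟨_, m1, rfl⟩, _, ⟨_, m2, rfl⟩, fun e => noiso ?_⟩
    have : ({0, 1, 3} : Finset ℕ) ∈ {Y' ∈ Top 𝒮 2 | ShIso 𝒮 {0, 1, 3} Y'} := ⟨m2, refl _⟩
    exact ((Set.ext_iff.1 e _).2 this).2

end Pool.Agent.Results.MP_522a36_co.Drop
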